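import Pool.Agent.Helper30.ML.Goals

/-!
# MP_bf413e_co, project ML, packet RB: the rank count for a MacLane family
-/

set_option autoImplicit false

namespace Pool.Agent.Helper74.ML

open scoped Classical
open Finset
open Pool.Agent.Helper94.KC (Even2)
open Pool.Agent.Helper30.ML

namespace RBx

theorem z2_even (n : ℕ) : ((n : ZMod 2) = 0) ↔ Even n := by
  rw [ZMod.natCast_eq_zero_iff, even_iff_two_dvd]

theorem z2_odd (n : ℕ) : ((n : ZMod 2) = 1) ↔ Odd n := ZMod.natCast_eq_one_iff_odd

theorem z2_cases (a : ZMod 2) : a = 0 ∨ a = 1 := by revert a; decide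

theorem z2_two (a : ZMod 2) : a + a = 0 := by revert a; decide

/-- The sum over the two ends of an edge vanishes. -/
theorem edge_sum {V : Type} [Fintype V] (G : SimpleGraph V) (e : Finset V) (he : e ∈ eG G)
    (c : ZMod 2) :
    ∑ x ∈ univ.filter (fun x => ∃ y, G.Adj x y), (if x ∈ e then c else 0) = 0 := by
  obtain ⟨u, v, huv, rfl⟩ := (Finset.mem_filter.1 he).2
  rw [← Finset.sum_filter]
  have h1 : (univ.filter (fun x => ∃ y, G.Adj x y)).filter (fun x => x ∈ ({u, v} : Finset V)) =
      {u, v} := by
    ext x
    simp only [mem_filter, mem_univ, true_and, mem_insert, mem_singleton, and_iff_right_iff_imp]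
    rintro (rfl | rfl)
    · exact ⟨v, huv⟩
    · exact ⟨u, huv.symm⟩
  rw [h1, Finset.sum_pair huv.ne]
  exact z2_two c

end RBx

open RBx

/-- PACKET RB (rank count). -/
theorem pRB : StmtRB := by
  intro V _ G m f hf hG
  obtain ⟨a₀, b₀, hab⟩ := hG
  let E : Finset (Finset V) := eG G
  let N : Finset V := univ.filter (fun x => ∃ y, G.Adj x y)
  -- the incidence map and the sum
  let D : (E → ZMod 2) →ₗ[ZMod 2] (N → ZMod 2) :=
    LinearMap.pi (fun x => ∑ e : E, if (x : V) ∈ (e : Finset V) then LinearMap.proj e else 0)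
  let S : (N → ZMod 2) →ₗ[ZMod 2] ZMod 2 := ∑ x : N, LinearMap.proj x
  have hD : ∀ z x, D z x = ∑ e : E, if (x : V) ∈ (e : Finset V) then z e else 0 := by
    intro z x
    simp only [D, LinearMap.pi_apply, LinearMap.sum_apply]
    refine Finset.sum_congr rfl fun e _ => ?_
    split_ifs <;> rfl
  have hS : ∀ h, S h = ∑ x : N, h x := by
    intro h
    simp only [S, LinearMap.sum_apply, LinearMap.proj_apply]
  have hSD : LinearMap.range D ≤ LinearMap.ker S := by
    rintro _ ⟨z, rfl⟩
    rw [LinearMap.mem_ker, hS]
    simp_rw [hD]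
    rw [Finset.sum_comm]
    refine Finset.sum_eq_zero fun e _ => ?_
    rw [Finset.sum_coe_sort N (fun x => if x ∈ (e : Finset V) then z e else 0)]
    exact edge_sum G e e.2 (z e)
  have hSr : LinearMap.range S = ⊤ := by
    rw [LinearMap.range_eq_top]
    intro c
    have ha : a₀ ∈ N := Finset.mem_filter.2 ⟨mem_univ _, b₀, hab⟩
    refine ⟨Pi.single ⟨a₀, ha⟩ c, ?_⟩
    rw [hS]
    simp
  have d1 := LinearMap.finrank_range_add_finrank_ker S
  have d2 := LinearMap.finrank_range_add_finrank_ker D
  have d3 := Submodule.finrank_mono hSD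
  rw [hSr, finrank_top, Module.finrank_self, Module.finrank_fintype_fun_eq_card,
    Fintype.card_coe] at d1
  rw [Module.finrank_fintype_fun_eq_card, Fintype.card_coe] at d2
  -- the indicator functions
  let χ : Fin m → (E → ZMod 2) := fun i e => if (e : Finset V) ∈ f i then 1 else 0
  have hχ : ∀ (J : Finset (Fin m)) (e : E),
      (∑ i ∈ J, χ i) e = ((J.filter (fun i => (e : Finset V) ∈ f i)).card : ZMod 2) := by
    intro J e
    rw [Finset.sum_apply, Finset.card_filter, Nat.cast_sum]
    refine Finset.sum_congr rfl fun i _ => ?_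
    simp only [χ]
    split_ifs <;> simp
  have hker : LinearMap.ker D ≤ Submodule.span (ZMod 2) (Set.range χ) := by
    intro z hz
    have hz' : ∀ x : N, ∑ e : E, (if (x : V) ∈ (e : Finset V) then z e else 0) = 0 := by
      intro x
      rw [← hD]
      exact congrFun (LinearMap.mem_ker.1 hz) x
    let zz : Finset (Finset V) := E.filter (fun e => ∃ h : e ∈ E, z ⟨e, h⟩ = 1)
    have hzz : ∀ e : E, (e : Finset V) ∈ zz ↔ z e = 1 := by
      intro e
      simp only [zz, mem_filter]
      constructor
      · rintro ⟨_, h, hh⟩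
        exact hh
      · intro h
        exact ⟨e.2, e.2, h⟩
    have hev : Even2 zz := by
      intro x
      by_cases hx : x ∈ N
      · rw [← z2_even]
        rw [← hz' ⟨x, hx⟩]
        rw [Finset.card_filter, Nat.cast_sum]
        have h1 : ∑ e ∈ zz, ((if x ∈ e then 1 else 0 : ℕ) : ZMod 2) =
            ∑ e ∈ E, if e ∈ zz ∧ x ∈ e then (1 : ZMod 2) else 0 := by
          rw [Finset.sum_filter]
          refine Finset.sum_congr rfl fun e he => ?_
          by_cases h1 : ∃ h : e ∈ E, z ⟨e, h⟩ = 1
          · have h2 : e ∈ zz := Finset.mem_filter.2 ⟨he, h1⟩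
            rw [if_pos h1]
            by_cases h3 : x ∈ e
            · simp [h2, h3]
            · simp [h3]
          · have h2 : e ∉ zz := fun h => h1 (Finset.mem_filter.1 h).2
            rw [if_neg h1, if_neg (fun h => h2 h.1)]
        rw [h1, ← Finset.sum_coe_sort E (fun e => if e ∈ zz ∧ x ∈ e then (1 : ZMod 2) else 0)]
        refine Finset.sum_congr rfl fun e _ => ?_
        rcases z2_cases (z e) with h | h
        · have h2 : (e : Finset V) ∉ zz := fun h3 => by
            rw [hzz, h] at h3
            exact absurd h3 (by decide)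
          rw [if_neg (fun h => h2 h.1), h]
          simp
        · have h2 : (e : Finset V) ∈ zz := (hzz e).2 h
          by_cases h3 : x ∈ (e : Finset V)
          · rw [if_pos ⟨h2, h3⟩, if_pos h3, h]
          · rw [if_neg (fun h => h3 h.2), if_neg h3]
      · have h1 : zz.filter (fun e => x ∈ e) = ∅ := by
          rw [Finset.filter_eq_empty_iff]
          intro e he hxe
          apply hx
          obtain ⟨u, v, huv, rfl⟩ := (Finset.mem_filter.1 (Finset.mem_filter.1 he).1).2
          rw [mem_insert, mem_singleton] at hxe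
          refine Finset.mem_filter.2 ⟨mem_univ _, ?_⟩
          rcases hxe with rfl | rfl
          · exact ⟨v, huv⟩
          · exact ⟨u, huv.symm⟩
        rw [h1]
        simp
    obtain ⟨J, hJ⟩ := hf.span zz (Finset.filter_subset _ _) hev
    have hzJ : z = ∑ i ∈ J, χ i := by
      funext e
      rw [hχ]
      have h1 := (hzz e).symm.trans (hJ e)
      rcases z2_cases (z e) with h | h
      · rw [h]
        symm
        rw [z2_even, ← Nat.not_odd_iff_even]
        intro h2
        have h3 := h1.2 h2
        rw [h] at h3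
        exact absurd h3 (by decide)
      · rw [h]
        symm
        rw [z2_odd]
        exact h1.1 h
    rw [hzJ]
    exact Submodule.sum_mem _ (fun i _ => Submodule.subset_span ⟨i, rfl⟩)
  obtain ⟨κ, a, ha, hspan, hli⟩ := exists_linearIndependent' (ZMod 2) χ
  have hκ : Finite κ := Finite.of_injective a ha
  have hκ' : Fintype κ := Fintype.ofFinite κ
  have d4 := Submodule.finrank_mono hker
  rw [← hspan, finrank_span_eq_card hli] at d4
  refine ⟨univ.image a, ?_, ?_⟩
  · rw [Finset.card_image_of_injective _ ha, Finset.card_univ]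
    have h1 : ni G = N.card := rfl
    have h2 : (eG G).card = E.card := rfl
    rw [h1, h2]
    omega
  · intro J hJ hev
    by_contra hne
    obtain ⟨j, hj⟩ := Finset.nonempty_iff_ne_empty.2 hne
    let J' : Finset κ := univ.filter (fun k => a k ∈ J)
    have hJ' : J = J'.image a := by
      ext i
      simp only [J', mem_image, mem_filter, mem_univ, true_and]
      constructor
      · intro hi
        obtain ⟨k, _, rfl⟩ := Finset.mem_image.1 (hJ hi)
        exact ⟨k, hi, rfl⟩
      · rintro ⟨k, hk, rfl⟩
        exact hk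
    have hsum : ∑ k ∈ J', (1 : ZMod 2) • (χ ∘ a) k = 0 := by
      have h1 : ∑ i ∈ J, χ i = 0 := by
        funext e
        rw [hχ]
        exact (z2_even _).2 (hev e)
      rw [hJ', Finset.sum_image (fun x _ y _ h => ha h)] at h1
      simpa using h1
    obtain ⟨k, _, hk⟩ := Finset.mem_image.1 (hJ hj)
    have := linearIndependent_iff'.1 hli J' (fun _ => 1) hsum k
      (Finset.mem_filter.2 ⟨mem_univ _, by rw [hk]; exact hj⟩)
    exact absurd this (by decide)

end Pool.Agent.Helper74.ML
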